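import Mathlib

/-!
# Nordhaus–Gaddum sums for total domination with `δ* = 4`

For every `k ≥ 2` the complement `G` of `k` disjoint copies of the bipartite complement of the
Heawood graph is connected, has `δ*(G) = 4`, order `n = 14 k`, and
`γ_t(G) + γ_t(Gᶜ) ≥ 3 n / 7 + 2`, `γ_t(G) γ_t(Gᶜ) ≥ 6 n / 7`.
-/

namespace Pool.Agent.Results.MP_4101c8_co.FanoCopies

open Finset

/-- `S` is a total dominating set of `G`: every vertex has a neighbour in `S`. -/
def IsTotalDominating {V : Type} (G : SimpleGraph V) (S : Finset V) : Prop :=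
  ∀ v, ∃ w ∈ S, G.Adj v w

/-- The total domination number `γ_t(G)`: the minimum size of a total dominating set. -/
noncomputable def totalDom {V : Type} (G : SimpleGraph V) : ℕ :=
  sInf {k | ∃ S : Finset V, IsTotalDominating G S ∧ S.card = k}

/-! ### The graph -/

/-- The vertices of `k` copies of the 14-vertex graph. -/
abbrev Vert (k : ℕ) := Fin k × Bool × ZMod 7

/-- The connection set (the complement of the difference set `{1, 2, 4}`). -/
def D : Finset (ZMod 7) := {0, 3, 5, 6}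

/-- the neighbours of `(a, x)` on the other side -/
def Rel (a : Bool) (x y : ZMod 7) : Prop := (bif a then y - x else x - y) ∈ D

instance (a : Bool) (x y : ZMod 7) : Decidable (Rel a x y) := by unfold Rel; infer_instance

/-- `k` disjoint copies of the bipartite complement of the Heawood graph. -/
def H (k : ℕ) : SimpleGraph (Vert k) where
  Adj u v := u.1 = v.1 ∧ v.2.1 = !u.2.1 ∧ Rel u.2.1 u.2.2 v.2.2
  symm := ⟨by
    rintro ⟨i, a, x⟩ ⟨j, b, y⟩ ⟨h1, h2, h3⟩
    dsimp only at h1 h2 h3 ⊢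
    subst h2
    refine ⟨h1.symm, by simp, ?_⟩
    cases a <;> simpa [Rel] using h3⟩
  loopless := ⟨by
    rintro ⟨i, a, x⟩ ⟨h1, h2, h3⟩
    dsimp only at h2
    cases a <;> simp at h2⟩

instance (k : ℕ) : DecidableRel (H k).Adj := fun u v => by
  unfold H; dsimp only; infer_instance

theorem card_rel : ∀ (a : Bool) (x : ZMod 7), (univ.filter fun y => Rel a x y).card = 4 := by
  decide

theorem miss : ∀ (a : Bool) (y z : ZMod 7), ∃ x, ¬ Rel a x y ∧ ¬ Rel a x z := by
  decide

theorem hit (a : Bool) (T : Finset (ZMod 7)) (h : ∀ x, ∃ y ∈ T, Rel a x y) : 3 ≤ T.card := by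
  by_contra hc
  have hc' : T.card = 0 ∨ T.card = 1 ∨ T.card = 2 := by omega
  have key : ∃ y z, ∀ w ∈ T, w = y ∨ w = z := by
    rcases hc' with h0 | h0 | h0
    · rw [Finset.card_eq_zero] at h0
      exact ⟨0, 0, by simp [h0]⟩
    · obtain ⟨y, rfl⟩ := Finset.card_eq_one.1 h0
      exact ⟨y, y, by simp⟩
    · obtain ⟨y, z, _, rfl⟩ := Finset.card_eq_two.1 h0
      exact ⟨y, z, by simp⟩
  obtain ⟨y, z, hyz⟩ := key
  obtain ⟨x, h1, h2⟩ := miss a y z
  obtain ⟨w, hw, h3⟩ := h x
  rcases hyz w hw with rfl | rfl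
  · exact h1 h3
  · exact h2 h3

theorem H_degree (k : ℕ) : (H k).IsRegularOfDegree 4 := by
  rintro ⟨i, a, x⟩
  rw [← SimpleGraph.card_neighborFinset_eq_degree, ← card_rel a x]
  symm
  apply Finset.card_bij (fun y _ => (i, !a, y))
  · intro y hy
    rw [SimpleGraph.mem_neighborFinset]
    exact ⟨rfl, rfl, (mem_filter.1 hy).2⟩
  · intro y _ z _ h
    simpa using h
  · rintro ⟨j, b, y⟩ h
    rw [SimpleGraph.mem_neighborFinset] at h
    obtain ⟨h1, h2, h3⟩ := h
    dsimp only at h1 h2 h3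
    exact ⟨y, mem_filter.2 ⟨mem_univ _, h3⟩, by rw [h1, h2]⟩

/-- The part of `S` in copy `i` and side `b`. -/
def part {k : ℕ} (S : Finset (Vert k)) (i : Fin k) (b : Bool) : Finset (ZMod 7) :=
  univ.filter fun y => (i, b, y) ∈ S

theorem three_le {k : ℕ} {S : Finset (Vert k)} (hS : IsTotalDominating (H k) S) (i : Fin k)
    (b : Bool) : 3 ≤ (part S i b).card := by
  apply hit (!b)
  intro x
  obtain ⟨⟨j, c, y⟩, hw, h1, h2, h3⟩ := hS (i, !b, x)
  dsimp only at h1 h2 h3
  rw [Bool.not_not] at h2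
  subst h1 h2
  exact ⟨y, mem_filter.2 ⟨mem_univ _, hw⟩, h3⟩

theorem card_ge {k : ℕ} {S : Finset (Vert k)} (hS : IsTotalDominating (H k) S) :
    6 * k ≤ S.card := by
  have h1 : S.card = ∑ p : Fin k × Bool, (part S p.1 p.2).card := by
    have h2 := Finset.card_eq_sum_card_fiberwise (f := fun v : Vert k => (v.1, v.2.1)) (s := S)
      (t := univ) (fun _ _ => mem_univ _)
    rw [h2]
    apply Finset.sum_congr rfl
    rintro ⟨i, b⟩ _
    symm
    apply Finset.card_bij (fun y _ => (i, b, y))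
    · intro y hy
      rw [mem_filter]
      exact ⟨(mem_filter.1 hy).2, rfl⟩
    · intro y _ z _ h
      simpa using h
    · rintro ⟨j, c, y⟩ h
      rw [mem_filter] at h
      obtain ⟨h1, h2⟩ := h
      simp only [Prod.mk.injEq] at h2
      obtain ⟨h2, h3⟩ := h2
      subst h2 h3
      exact ⟨y, mem_filter.2 ⟨mem_univ _, h1⟩, rfl⟩
  rw [h1]
  calc 6 * k = ∑ p : Fin k × Bool, 3 := by
        rw [Finset.sum_const, smul_eq_mul, Finset.card_univ, Fintype.card_prod, Fintype.card_fin,
          Fintype.card_bool]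
        ring
    _ ≤ _ := Finset.sum_le_sum fun p _ => three_le hS p.1 p.2

theorem two_le {V : Type} [Nonempty V] {G : SimpleGraph V} {S : Finset V}
    (hS : IsTotalDominating G S) : 2 ≤ S.card := by
  obtain ⟨v⟩ := ‹Nonempty V›
  obtain ⟨w, hw, _⟩ := hS v
  obtain ⟨z, hz, h⟩ := hS w
  exact Finset.one_lt_card.2 ⟨w, hw, z, hz, h.ne⟩

theorem le_totalDom {V : Type} [Fintype V] {G : SimpleGraph V} {m : ℕ}
    (h0 : ∀ v, ∃ w, G.Adj v w) (h : ∀ S, IsTotalDominating G S → m ≤ S.card) :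
    m ≤ totalDom G := by
  refine le_csInf ⟨_, univ, fun v => ?_, rfl⟩ ?_
  · obtain ⟨w, hw⟩ := h0 v
    exact ⟨w, mem_univ _, hw⟩
  · rintro _ ⟨S, hS, rfl⟩
    exact h S hS

theorem not_same {k : ℕ} {u v : Vert k} (h : u.1 ≠ v.1) : (H k)ᶜ.Adj u v := by
  rw [SimpleGraph.compl_adj]
  exact ⟨fun e => h (by rw [e]), fun e => h e.1⟩

theorem minDegree_eq_of_eq {V : Type} [Fintype V] (G G' : SimpleGraph V)
    [i1 : DecidableRel G.Adj] [i2 : DecidableRel G'.Adj] (h : G = G') :
    G.minDegree = G'.minDegree := by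
  subst h
  have h2 : i1 = i2 := Subsingleton.elim _ _
  subst h2
  rfl

/-- **Both questions, negated form.**  For every `n₀` there is a connected graph `G` of order
`n ≥ n₀` with `δ*(G) = 4`, `γ_t(G) + γ_t(Gᶜ) ≥ 3n/7 + 2 > 2n/5 + 2` and
`γ_t(G) γ_t(Gᶜ) ≥ 6n/7 > 4n/5`. -/
theorem result : ∀ n₀ : ℕ, ∃ (V : Type) (_ : Fintype V) (_ : DecidableEq V) (G : SimpleGraph V)
    (_ : DecidableRel G.Adj), n₀ ≤ Fintype.card V ∧ G.Connected ∧
      min G.minDegree Gᶜ.minDegree = 4 ∧
      (3 * Fintype.card V / 7 + 2 : ℝ) ≤ totalDom G + totalDom Gᶜ ∧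
      (2 * Fintype.card V / 5 + 2 : ℝ) < totalDom G + totalDom Gᶜ ∧
      (6 * Fintype.card V / 7 : ℝ) ≤ totalDom G * totalDom Gᶜ ∧
      (4 * Fintype.card V / 5 : ℝ) < totalDom G * totalDom Gᶜ := by
  intro n₀
  set k := n₀ + 2 with hk
  have hcard : Fintype.card (Vert k) = 14 * k := by
    rw [Fintype.card_prod, Fintype.card_prod, Fintype.card_fin, Fintype.card_bool, ZMod.card]
    ring
  have : Nonempty (Vert k) := ⟨(⟨0, by omega⟩, true, 0)⟩
  have hother : ∀ i : Fin k, ∃ j : Fin k, j ≠ i := fun i => by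
    by_cases h : i.1 = 0
    · exact ⟨⟨1, by omega⟩, fun e => by
        have := congrArg Fin.val e
        simp only [h] at this
        omega⟩
    · exact ⟨⟨0, by omega⟩, fun e => h (by rw [← e])⟩
  have hconn : (H k)ᶜ.Connected := by
    rw [SimpleGraph.connected_iff]
    refine ⟨fun u v => ?_, inferInstance⟩
    by_cases h : u.1 = v.1
    · obtain ⟨j, hj⟩ := hother u.1
      have h1 : (H k)ᶜ.Adj u (j, true, 0) := not_same (fun e => hj e.symm)
      have h2 : (H k)ᶜ.Adj (j, true, 0) v := not_same (fun e => hj (e.trans h.symm))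
      exact h1.reachable.trans h2.reachable
    · exact (not_same h).reachable
  have hmin1 : (H k).minDegree = 4 := (H_degree k).minDegree_eq
  have hmin2 : (H k)ᶜ.minDegree = 14 * k - 1 - 4 := by
    have := (H_degree k).compl.minDegree_eq
    rw [this, hcard]
  have e1 : 6 * k ≤ totalDom (H k) := by
    apply le_totalDom
    · intro v
      have h := H_degree k v
      have h2 : 0 < (H k).degree v := by rw [h]; norm_num
      exact (SimpleGraph.degree_pos_iff_exists_adj _ _).1 h2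
    · exact fun S hS => card_ge hS
  have e2 : 2 ≤ totalDom (H k)ᶜ := by
    apply le_totalDom
    · intro v
      obtain ⟨j, hj⟩ := hother v.1
      exact ⟨(j, true, 0), not_same (fun e => hj e.symm)⟩
    · exact fun S hS => two_le hS
  have e1' : (6 * k : ℝ) ≤ totalDom (H k) := by exact_mod_cast e1
  have e2' : (2 : ℝ) ≤ totalDom (H k)ᶜ := by exact_mod_cast e2
  have hk0 : (2 : ℝ) ≤ k := by exact_mod_cast (by omega : 2 ≤ k)
  refine ⟨Vert k, inferInstance, inferInstance, (H k)ᶜ, inferInstance, ?_, hconn, ?_, ?_, ?_, ?_,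
    ?_⟩
  · rw [hcard]; omega
  · rw [hmin2]
    rw [minDegree_eq_of_eq _ (H k) (compl_compl _), hmin1]
    omega
  · rw [hcard, compl_compl]
    push_cast
    nlinarith
  · rw [hcard, compl_compl]
    push_cast
    nlinarith
  · rw [hcard, compl_compl]
    push_cast
    nlinarith
  · rw [hcard, compl_compl]
    push_cast
    nlinarith

end Pool.Agent.Results.MP_4101c8_co.FanoCopies
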